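import Mathlib

set_option autoImplicit false

namespace Pool.Agent.Results.MP_150040_al.Counterexample

open MulOpposite

/-! ### Definitions, for rings without assumed identity -/

/-- `R` is right primitive: it has a faithful simple right module `M`. The right module structure
is a ring homomorphism `ρ` from `R` to the opposite of the ring of additive endomorphisms of `M`,
so that `m · r = (ρ r).unop m` and `m · (r s) = (m · r) · s`. Simplicity says that `M R ≠ 0` and
that the only subgroups stable under `R` are `0` and `M`. -/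
def RightPrimitive (R : Type) [NonUnitalRing R] : Prop :=
  ∃ (M : Type) (_ : AddCommGroup M) (ρ : R →ₙ+* (AddMonoid.End M)ᵐᵒᵖ),
    (∃ r m, (ρ r).unop m ≠ 0) ∧
    (∀ N : AddSubgroup M, (∀ r, ∀ m ∈ N, (ρ r).unop m ∈ N) → N = ⊥ ∨ N = ⊤) ∧
    (∀ r, (∀ m, (ρ r).unop m = 0) → r = 0)

/-- `S` is subdirectly indecomposable: `S ≠ 0` and the intersection of all nonzero two-sided ideals
is nonzero. -/
def SubdirectlyIndecomposable (S : Type) [NonUnitalRing S] : Prop :=
  (∃ s : S, s ≠ 0) ∧ ∃ x : S, x ≠ 0 ∧ ∀ I : TwoSidedIdeal S, I ≠ ⊥ → x ∈ I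

/-- `R` is a subdirect product of rings which are right primitive and subdirectly
indecomposable. -/
def IsSubdirectProductOfSIPrimitive (R : Type) [NonUnitalRing R] : Prop :=
  ∃ (ι : Type) (S : ι → Type) (_ : ∀ i, NonUnitalRing (S i)) (f : ∀ i, R →ₙ+* S i),
    (∀ i, Function.Surjective (f i)) ∧ (∀ r, (∀ i, f i r = 0) → r = 0) ∧
    ∀ i, RightPrimitive (S i) ∧ SubdirectlyIndecomposable (S i)

/-! ### General criterion -/

section criterion

variable {R : Type} [Ring R] (T y : R)

lemma T_ideal (hc : ∀ a, T * a = a * T) (n : ℕ) (a : R) : T ^ n * a = a * T ^ n :=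
  ((Commute.pow_left (show Commute T a from hc a)) n).eq

lemma criterion_primitive (hc : ∀ a, T * a = a * T)
    (hI : ∀ I : TwoSidedIdeal R, I ≠ ⊥ → ∃ n, T ^ n ∈ I)
    (hy : ∀ z, (1 - T * y) * z ≠ 1) : RightPrimitive R := by
  have hne : Ideal.span {op (1 - T * y)} ≠ ⊤ := by
    intro h
    have h1 : (1 : Rᵐᵒᵖ) ∈ Ideal.span {op (1 - T * y)} := by rw [h]; trivial
    obtain ⟨a, ha⟩ := Ideal.mem_span_singleton'.mp h1
    apply hy a.unop
    have := congrArg unop ha
    simpa using this
  obtain ⟨m, hm, hle⟩ := Ideal.exists_le_maximal _ hne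
  have hmem : op (1 - T * y) ∈ m := hle (Ideal.subset_span rfl)
  let M := Rᵐᵒᵖ ⧸ (m : Submodule Rᵐᵒᵖ Rᵐᵒᵖ)
  have hsimple : IsSimpleModule Rᵐᵒᵖ M := isSimpleModule_iff_isCoatom.mpr hm.out
  let ρ : R →ₙ+* (AddMonoid.End M)ᵐᵒᵖ :=
    { toFun := fun r => op (Module.toAddMonoidEnd Rᵐᵒᵖ M (op r))
      map_mul' := by intro a b; rw [op_mul, map_mul, op_mul]
      map_zero' := by simp
      map_add' := by intro a b; rw [op_add, map_add, op_add] }
  have hρ : ∀ r (x : M), (ρ r).unop x = op r • x := fun r x => rfl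
  -- multiplication by `T`
  let τ : M →ₗ[Rᵐᵒᵖ] M :=
    { toFun := fun x => op T • x
      map_add' := fun a b => smul_add _ _ _
      map_smul' := by
        intro a b
        simp only [RingHom.id_apply, smul_smul]
        congr 1
        apply unop_injective
        simp [hc] }
  have hτ : ∀ x, τ x = op T • x := fun x => rfl
  have hpow : ∀ n x, (τ ^ n) x = op (T ^ n) • x := by
    intro n
    induction n with
    | zero => intro x; simp
    | succ n ih =>
      intro x
      rw [pow_succ, Module.End.mul_apply, ih, hτ, smul_smul]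
      congr 1
      apply unop_injective
      simp [pow_succ']
  have hone : (Submodule.Quotient.mk (1 : Rᵐᵒᵖ) : M) ≠ 0 := by
    intro h
    rw [Submodule.Quotient.mk_eq_zero] at h
    exact hm.ne_top ((Ideal.eq_top_iff_one m).mpr h)
  have hTne : op T • (Submodule.Quotient.mk (1 : Rᵐᵒᵖ) : M) ≠ 0 := by
    intro h
    rw [← Submodule.Quotient.mk_smul, Submodule.Quotient.mk_eq_zero, smul_eq_mul, mul_one] at h
    apply hm.ne_top
    rw [Ideal.eq_top_iff_one]
    have h2 : op y * op T ∈ m := m.mul_mem_left _ h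
    have h3 := m.add_mem hmem h2
    have h4 : op (1 - T * y) + op y * op T = 1 := by
      apply unop_injective
      simp
    rwa [h4] at h3
  have hbij : Function.Bijective τ := by
    rcases LinearMap.bijective_or_eq_zero τ with h | h
    · exact h
    · exfalso
      apply hTne
      rw [← hτ, h]
      rfl
  refine ⟨M, inferInstance, ρ, ⟨T, Submodule.Quotient.mk (1 : Rᵐᵒᵖ), ?_⟩, ?_, ?_⟩
  · rw [hρ]
    exact hTne
  · intro N hN
    let N' : Submodule Rᵐᵒᵖ M :=
      { carrier := N
        add_mem' := fun ha hb => N.add_mem ha hb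
        zero_mem' := N.zero_mem
        smul_mem' := by
          intro c x hx
          exact hN c.unop x hx }
    rcases eq_bot_or_eq_top N' with h | h
    · left
      ext x
      have : x ∈ N' ↔ x ∈ (⊥ : Submodule Rᵐᵒᵖ M) := by rw [h]
      exact this
    · right
      ext x
      have : x ∈ N' ↔ x ∈ (⊤ : Submodule Rᵐᵒᵖ M) := by rw [h]
      exact this
  · intro r hr
    by_contra hr0
    let J : TwoSidedIdeal R := TwoSidedIdeal.mk' {r | ∀ x : M, op r • x = 0}
      (by intro x; simp)
      (by intro a b ha hb x; rw [op_add, add_smul, ha, hb, add_zero])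
      (by intro a ha x; rw [op_neg, neg_smul, ha, neg_zero])
      (by intro a b hb x; rw [op_mul, mul_smul, hb])
      (by intro a b ha x; rw [op_mul, mul_smul, ha, smul_zero])
    have hJ : J ≠ ⊥ := by
      intro h
      have h1 : r ∈ J := (TwoSidedIdeal.mem_mk' _ _ _ _ _ _ _).mpr hr
      rw [h] at h1
      exact hr0 ((TwoSidedIdeal.mem_bot _).mp h1)
    obtain ⟨n, hn⟩ := hI J hJ
    have h1 : ∀ x : M, op (T ^ n) • x = 0 := (TwoSidedIdeal.mem_mk' _ _ _ _ _ _ _).mp hn
    have h2 : Function.Injective (τ ^ n) := by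
      rw [Module.End.coe_pow]
      exact hbij.1.iterate n
    apply hone
    apply h2
    rw [hpow, h1, map_zero]

lemma criterion_not_subdirect (hc : ∀ a, T * a = a * T)
    (hI : ∀ I : TwoSidedIdeal R, I ≠ ⊥ → ∃ n, T ^ n ∈ I)
    (hreg : ∀ a, T * a = 0 → a = 0) (hunit : ∀ z, T * z ≠ 1) :
    ¬ IsSubdirectProductOfSIPrimitive R := by
  rintro ⟨ι, S, instS, f, hsurj, hjoint, hS⟩
  have hregn : ∀ n a, T ^ n * a = 0 → a = 0 := by
    intro n
    induction n with
    | zero => intro a h; simpa using h
    | succ n ih =>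
      intro a h
      rw [pow_succ, mul_assoc] at h
      exact hreg _ (ih _ h)
  have hone : (1 : R) ≠ 0 := by
    intro h
    apply hunit 0
    rw [mul_zero, h]
  have hTn : ∀ n, T ^ n ≠ 0 := by
    intro n h
    apply hone
    apply hregn n
    rw [h, zero_mul]
  -- the intersection of the ideals generated by powers of `T` is zero
  have hinter : ∀ r : R, (∀ n, ∃ r', r = T ^ n * r') → r = 0 := by
    intro r hr
    by_contra hr0
    let L : TwoSidedIdeal R := TwoSidedIdeal.mk' {r | ∀ n, ∃ r', r = T ^ n * r'}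
      (fun n => ⟨0, by simp⟩)
      (by
        intro a b ha hb n
        obtain ⟨a', ha'⟩ := ha n
        obtain ⟨b', hb'⟩ := hb n
        exact ⟨a' + b', by rw [mul_add, ← ha', ← hb']⟩)
      (by
        intro a ha n
        obtain ⟨a', ha'⟩ := ha n
        exact ⟨-a', by rw [mul_neg, ← ha']⟩)
      (by
        intro a b hb n
        obtain ⟨b', hb'⟩ := hb n
        exact ⟨a * b', by rw [hb', ← mul_assoc, ← mul_assoc, T_ideal T hc]⟩)
      (by
        intro a b ha n
        obtain ⟨a', ha'⟩ := ha n
        exact ⟨a' * b, by rw [ha', mul_assoc]⟩)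
    have hL : L ≠ ⊥ := by
      intro h
      have h1 : r ∈ L := (TwoSidedIdeal.mem_mk' _ _ _ _ _ _ _).mpr hr
      rw [h] at h1
      exact hr0 ((TwoSidedIdeal.mem_bot _).mp h1)
    obtain ⟨n, hn⟩ := hI L hL
    have h1 : ∀ k, ∃ r', T ^ n = T ^ k * r' := (TwoSidedIdeal.mem_mk' _ _ _ _ _ _ _).mp hn
    obtain ⟨r', hr'⟩ := h1 (n + 1)
    apply hunit r'
    have h2 : T ^ n * (T * r' - 1) = 0 := by
      rw [mul_sub, mul_one, ← mul_assoc, ← pow_succ, ← hr', sub_self]
    exact sub_eq_zero.mp (hregn n _ h2)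
  apply hunit 0
  exfalso
  have hT0 : T ≠ 0 := by
    have := hTn 1
    rwa [pow_one] at this
  apply hT0
  apply hjoint
  intro i
  obtain ⟨⟨M, instM, ρ, ⟨r0, m0, hrm⟩, hsub, hfaith⟩, -, x, hx0, hx⟩ := hS i
  -- some positive power of `T` is in the kernel
  have hker : ∃ n, f i (T ^ n) = 0 := by
    by_contra hcon
    push Not at hcon
    obtain ⟨r, rfl⟩ := hsurj i x
    apply hx0
    have : r = 0 ∨ ∃ a, a ≠ 0 ∧ f i a = 0 := by
      by_cases hinj : ∃ a, a ≠ 0 ∧ f i a = 0
      · exact Or.inr hinj
      · left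
        push Not at hinj
        have hinj' : ∀ a b, f i a = f i b → a = b := by
          intro a b hab
          by_contra hne
          exact hinj (a - b) (sub_ne_zero.mpr hne) (by rw [map_sub, hab, sub_self])
        apply hinter
        intro n
        let Jn : TwoSidedIdeal (S i) := TwoSidedIdeal.mk' {s | ∃ r', s = f i (T ^ n * r')}
          ⟨0, by simp⟩
          (by
            rintro a b ⟨a', ha'⟩ ⟨b', hb'⟩
            exact ⟨a' + b', by rw [mul_add, map_add, ← ha', ← hb']⟩)
          (by
            rintro a ⟨a', ha'⟩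
            exact ⟨-a', by rw [mul_neg, map_neg, ← ha']⟩)
          (by
            rintro a b ⟨b', hb'⟩
            obtain ⟨a', rfl⟩ := hsurj i a
            exact ⟨a' * b', by rw [hb', ← map_mul, ← mul_assoc, ← mul_assoc, T_ideal T hc]⟩)
          (by
            rintro a b ⟨a', ha'⟩
            obtain ⟨b', rfl⟩ := hsurj i b
            exact ⟨a' * b', by rw [ha', ← map_mul, mul_assoc]⟩)
        have hJn : Jn ≠ ⊥ := by
          intro h
          have h1 : f i (T ^ n) ∈ Jn :=
            (TwoSidedIdeal.mem_mk' _ _ _ _ _ _ _).mpr ⟨1, by rw [mul_one]⟩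
          rw [h] at h1
          exact hcon n ((TwoSidedIdeal.mem_bot _).mp h1)
        obtain ⟨r', hr'⟩ := (TwoSidedIdeal.mem_mk' _ _ _ _ _ _ _).mp (hx Jn hJn)
        exact ⟨r', hinj' _ _ hr'⟩
    rcases this with h | ⟨a, ha0, ha⟩
    · rw [h, map_zero]
    · exfalso
      let K : TwoSidedIdeal R := TwoSidedIdeal.mk' {r | f i r = 0}
        (map_zero _)
        (by
          intro a b (ha : f i a = 0) (hb : f i b = 0)
          show f i (a + b) = 0
          rw [map_add, ha, hb, add_zero])
        (by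
          intro a (ha : f i a = 0)
          show f i (-a) = 0
          rw [map_neg, ha, neg_zero])
        (by
          intro a b (hb : f i b = 0)
          show f i (a * b) = 0
          rw [map_mul, hb, mul_zero])
        (by
          intro a b (ha : f i a = 0)
          show f i (a * b) = 0
          rw [map_mul, ha, zero_mul])
      have hK : K ≠ ⊥ := by
        intro h
        have h1 : a ∈ K := (TwoSidedIdeal.mem_mk' _ _ _ _ _ _ _).mpr ha
        rw [h] at h1
        exact ha0 ((TwoSidedIdeal.mem_bot _).mp h1)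
      obtain ⟨n, hn⟩ := hI K hK
      exact hcon n ((TwoSidedIdeal.mem_mk' {r | f i r = 0} _ _ _ _ _ _).mp hn)
  obtain ⟨n, hn⟩ := hker
  -- the endomorphism given by `T`
  let θ : M →+ M := (ρ (f i T)).unop
  have hθc : ∀ s m, (ρ s).unop (θ m) = θ ((ρ s).unop m) := by
    intro s m
    obtain ⟨a, rfl⟩ := hsurj i s
    have h1 : ρ (f i (T * a)) = ρ (f i (a * T)) := by rw [hc]
    rw [map_mul, map_mul, map_mul, map_mul] at h1
    have h2 := congrArg (fun z => z.unop m) h1
    exact h2
  have hθn : ∀ k m, (ρ (f i (T ^ (k + 1)))).unop m = (θ^[k + 1]) m := by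
    intro k
    induction k with
    | zero =>
      intro m
      rw [zero_add, pow_one]
      rfl
    | succ k ih =>
      intro m
      rw [pow_succ', map_mul, map_mul, Function.iterate_succ_apply, ← ih]
      rfl
  rcases hsub θ.range (by
    rintro s _ ⟨m, rfl⟩
    exact ⟨(ρ s).unop m, (hθc s m).symm⟩) with h | h
  · apply hfaith
    intro m
    have : θ m ∈ θ.range := ⟨m, rfl⟩
    rw [h] at this
    exact this
  · exfalso
    have hs : Function.Surjective θ := AddMonoidHom.range_eq_top.mp h
    have hs2 : Function.Surjective (θ^[n + 1]) := hs.iterate (n + 1)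
    obtain ⟨m1, hm1⟩ := hs2 m0
    have h0 : f i (T ^ (n + 1)) = 0 := by rw [pow_succ, map_mul, hn, zero_mul]
    have h1 := hθn n m1
    rw [h0, map_zero, hm1] at h1
    have h2 : m0 = 0 := h1.symm
    rw [h2, map_zero] at hrm
    exact hrm rfl

end criterion

/-! ### Operators with vanishing iterated commutators -/

section filtration

variable {A : Type} [Ring A] (Y : A)

/-- `Fil Y n r` says that the `n`-fold iterated commutator of `r` with `Y` vanishes. -/
def Fil : ℕ → A → Prop
  | 0, r => r = 0
  | n + 1, r => Fil n (r * Y - Y * r)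

lemma Fil_zero (n : ℕ) : Fil Y n 0 := by
  induction n with
  | zero => rfl
  | succ n ih =>
    show Fil Y n (0 * Y - Y * 0)
    rwa [zero_mul, mul_zero, sub_zero]

lemma Fil_add (n : ℕ) : ∀ r s, Fil Y n r → Fil Y n s → Fil Y n (r + s) := by
  induction n with
  | zero =>
    intro r s (hr : r = 0) (hs : s = 0)
    show r + s = 0
    rw [hr, hs, add_zero]
  | succ n ih =>
    intro r s hr hs
    have := ih _ _ hr hs
    show Fil Y n ((r + s) * Y - Y * (r + s))
    rw [add_mul, mul_add]
    convert this using 1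
    abel

lemma Fil_neg (n : ℕ) : ∀ r, Fil Y n r → Fil Y n (-r) := by
  induction n with
  | zero =>
    intro r (hr : r = 0)
    show -r = 0
    rw [hr, neg_zero]
  | succ n ih =>
    intro r hr
    have := ih _ hr
    show Fil Y n (-r * Y - Y * -r)
    convert this using 1
    rw [neg_mul, mul_neg]
    abel

lemma Fil_succ (n : ℕ) : ∀ r, Fil Y n r → Fil Y (n + 1) r := by
  induction n with
  | zero =>
    intro r (hr : r = 0)
    rw [hr]
    exact Fil_zero _ _
  | succ n ih =>
    intro r hr
    exact ih _ hr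

lemma Fil_mono {m n : ℕ} (h : m ≤ n) (r : A) (hr : Fil Y m r) : Fil Y n r := by
  induction n, h using Nat.le_induction with
  | base => exact hr
  | succ n _ ih => exact Fil_succ _ _ _ ih

lemma Fil_mul (k : ℕ) : ∀ m n, m + n = k → ∀ r s, Fil Y m r → Fil Y n s → Fil Y k (r * s) := by
  induction k with
  | zero =>
    intro m n hmn r s hr hs
    have hm : m = 0 := by omega
    subst hm
    rw [show r = 0 from hr, zero_mul]
    exact Fil_zero _ _
  | succ k ih =>
    intro m n hmn r s hr hs
    rcases m with _ | m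
    · rw [show r = 0 from hr, zero_mul]
      exact Fil_zero _ _
    rcases n with _ | n
    · rw [show s = 0 from hs, mul_zero]
      exact Fil_zero _ _
    have h1 : Fil Y k (r * (s * Y - Y * s)) := ih (m + 1) n (by omega) _ _ hr hs
    have h2 : Fil Y k ((r * Y - Y * r) * s) := ih m (n + 1) (by omega) _ _ hr hs
    show Fil Y k (r * s * Y - Y * (r * s))
    have h3 : r * s * Y - Y * (r * s) = r * (s * Y - Y * s) + (r * Y - Y * r) * s := by
      noncomm_ring
    rw [h3]
    exact Fil_add _ _ _ _ h1 h2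

/-- The subring of all elements some iterated commutator of which with `Y` vanishes. -/
def D : Subring A where
  carrier := {r | ∃ n, Fil Y n r}
  mul_mem' := by
    rintro a b ⟨m, hm⟩ ⟨n, hn⟩
    exact ⟨m + n, Fil_mul Y _ m n rfl _ _ hm hn⟩
  one_mem' := ⟨1, by
    show (1 : A) * Y - Y * 1 = 0
    rw [one_mul, mul_one, sub_self]⟩
  add_mem' := by
    rintro a b ⟨m, hm⟩ ⟨n, hn⟩
    exact ⟨max m n, Fil_add _ _ _ _ (Fil_mono _ (le_max_left _ _) _ hm)
      (Fil_mono _ (le_max_right _ _) _ hn)⟩
  zero_mem' := ⟨0, rfl⟩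
  neg_mem' := by
    rintro a ⟨n, hn⟩
    exact ⟨n, Fil_neg _ _ _ hn⟩

lemma mem_of_comm (r : A) (h : r * Y = Y * r) : r ∈ D Y := ⟨1, sub_eq_zero.mpr h⟩

lemma mem_of_comm_one (r : A) (h : r * Y = Y * r + 1) : r ∈ D Y := ⟨2, by
  show (r * Y - Y * r) * Y - Y * (r * Y - Y * r) = 0
  have : r * Y - Y * r = 1 := by rw [h, add_sub_cancel_left]
  rw [this, one_mul, mul_one, sub_self]⟩

lemma ideal_step1 (I : TwoSidedIdeal (D Y)) (n : ℕ) : ∀ r : D Y, r ∈ I → r ≠ 0 →
    Fil Y n r → ∃ s : D Y, s ∈ I ∧ s ≠ 0 ∧ (s : A) * Y = Y * s := by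
  induction n with
  | zero =>
    intro r _ hr0 hF
    have h1 : (r : A) = 0 := hF
    exact absurd (Subtype.ext h1) hr0
  | succ n ih =>
    intro r hr hr0 hF
    by_cases h : (r : A) * Y - Y * r = 0
    · exact ⟨r, hr, hr0, sub_eq_zero.mp h⟩
    · let y : D Y := ⟨Y, mem_of_comm Y Y rfl⟩
      have h1 : r * y - y * r ∈ I := I.sub_mem (I.mul_mem_right _ _ hr) (I.mul_mem_left _ _ hr)
      apply ih (r * y - y * r) h1
      · intro h0
        exact h (congrArg Subtype.val h0)
      · exact hF

lemma comm_generic (a b c : A) (ha : a ∈ D Y) (hb : b ∈ D Y) (hc : c ∈ D Y)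
    (h : a * b = c + b * a) :
    (⟨a, ha⟩ : D Y) * ⟨b, hb⟩ - ⟨b, hb⟩ * ⟨a, ha⟩ = ⟨c, hc⟩ := by
  apply Subtype.ext
  show a * b - b * a = c
  rw [h, add_sub_cancel_right]

end filtration

/-! ### The example -/

/-- Formal power series over the rationals. -/
abbrev V := PowerSeries ℚ

/-- The ring of `V`-linear endomorphisms of the polynomial ring `V[X]`. -/
abbrev E := Module.End V (Polynomial V)

/-- Multiplication by a polynomial. -/
noncomputable def mulP (p : Polynomial V) : E := LinearMap.mulLeft V p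

lemma mulP_apply (p f : Polynomial V) : mulP p f = p * f := rfl

/-- Multiplication by `X`. -/
noncomputable def Y : E := mulP Polynomial.X

lemma E_ext (a b : E) (h : ∀ f, a f = b f) : a = b := LinearMap.ext h

lemma mulP_mem (p : Polynomial V) : mulP p ∈ D Y := by
  apply mem_of_comm
  apply E_ext
  intro f
  show p * (Polynomial.X * f) = Polynomial.X * (p * f)
  ring

/-- The derivative. -/
noncomputable def der : E := Polynomial.derivative

lemma der_apply (f : Polynomial V) : der f = Polynomial.derivative f := rfl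

lemma Y_apply (f : Polynomial V) : Y f = Polynomial.X * f := rfl

lemma E_add (a b : E) (f : Polynomial V) : (a + b) f = a f + b f := rfl

lemma E_mul (a b : E) (f : Polynomial V) : (a * b) f = a (b f) := rfl

lemma E_one (f : Polynomial V) : (1 : E) f = f := rfl

lemma der_mem : der ∈ D Y := by
  apply mem_of_comm_one
  apply E_ext
  intro f
  rw [E_add, E_mul, E_mul, E_one, der_apply, der_apply, Y_apply, Y_apply,
    Polynomial.derivative_mul, Polynomial.derivative_X]
  ring

lemma der_comm (p : Polynomial V) :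
    (⟨der, der_mem⟩ : D Y) * ⟨mulP p, mulP_mem p⟩ - ⟨mulP p, mulP_mem p⟩ * ⟨der, der_mem⟩ =
      ⟨mulP (Polynomial.derivative p), mulP_mem _⟩ := by
  apply comm_generic
  apply E_ext
  intro f
  rw [E_add, E_mul, E_mul, der_apply, der_apply, mulP_apply, mulP_apply, mulP_apply,
    Polynomial.derivative_mul]

/-- An operator commuting with multiplication by `X` is multiplication by a polynomial. -/
lemma eq_mulP (s : E) (h : s * Y = Y * s) : s = mulP (s 1) := by
  have hX : ∀ f, s (Polynomial.X * f) = Polynomial.X * s f := by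
    intro f
    have := congrArg (fun z : E => z f) h
    exact this
  apply E_ext
  intro f
  rw [mulP_apply]
  induction f using Polynomial.induction_on' with
  | add p q hp hq => rw [map_add, hp, hq, mul_add]
  | monomial n a =>
    induction n with
    | zero =>
      have : (Polynomial.monomial 0 a : Polynomial V) = a • (1 : Polynomial V) := by
        rw [Polynomial.monomial_zero_left, Polynomial.smul_eq_C_mul, mul_one]
      rw [this, map_smul, mul_smul_comm, mul_one]
    | succ n ih =>
      have : (Polynomial.monomial (n + 1) a : Polynomial V) =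
          Polynomial.X * Polynomial.monomial n a := by
        rw [Polynomial.X_mul_monomial]
      rw [this, hX, ih]
      ring

/-- The central element. -/
noncomputable def T : D Y := ⟨mulP (Polynomial.C PowerSeries.X), mulP_mem _⟩

lemma D_ext (a b : D Y) (h : ∀ f, (a : E) f = (b : E) f) : a = b := Subtype.ext (E_ext _ _ h)

lemma T_central (a : D Y) : T * a = a * T := by
  apply D_ext
  intro f
  show Polynomial.C PowerSeries.X * (a : E) f = (a : E) (Polynomial.C PowerSeries.X * f)
  rw [← Polynomial.smul_eq_C_mul, ← Polynomial.smul_eq_C_mul, map_smul]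

lemma T_reg (a : D Y) (h : T * a = 0) : a = 0 := by
  apply D_ext
  intro f
  have h1 := congrArg (fun z : D Y => (z : E) f) h
  have h2 : Polynomial.C (PowerSeries.X : V) * (a : E) f = 0 := h1
  have h3 : Polynomial.C (PowerSeries.X : V) ≠ 0 := by
    rw [Ne, Polynomial.C_eq_zero]
    exact PowerSeries.X_ne_zero
  exact (mul_eq_zero.mp h2).resolve_left h3

lemma T_unit (z : D Y) : T * z ≠ 1 := by
  intro h
  have h1 := congrArg (fun z : D Y => (z : E) 1) h
  have h2 : Polynomial.C (PowerSeries.X : V) * (z : E) 1 = 1 := h1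
  have h3 : IsUnit (Polynomial.C (PowerSeries.X : V)) := IsUnit.of_mul_eq_one _ h2
  rw [Polynomial.isUnit_C] at h3
  exact PowerSeries.X_prime.not_isUnit h3

lemma Ty_unit (z : D Y) : (1 - T * ⟨mulP Polynomial.X, mulP_mem _⟩) * z ≠ 1 := by
  intro h
  have h0 : z = 1 + T * ⟨mulP Polynomial.X, mulP_mem _⟩ * z := by
    rw [sub_mul, one_mul, sub_eq_iff_eq_add] at h
    exact h
  have h1 := congrArg (fun z : D Y => (z : E) 1) h0
  have h2' : (z : E) 1 = 1 + Polynomial.C (PowerSeries.X : V) * (Polynomial.X * (z : E) 1) := h1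
  have h2 : (1 - Polynomial.C (PowerSeries.X : V) * Polynomial.X) * (z : E) 1 = 1 := by
    linear_combination h2'
  have h3 : IsUnit (1 - Polynomial.C (PowerSeries.X : V) * Polynomial.X) :=
    IsUnit.of_mul_eq_one _ h2
  have h4 := Polynomial.natDegree_eq_zero_of_isUnit h3
  have h5 : (1 - Polynomial.C (PowerSeries.X : V) * Polynomial.X).natDegree = 1 := by
    have e : (1 - Polynomial.C (PowerSeries.X : V) * Polynomial.X) =
        Polynomial.C (-PowerSeries.X) * Polynomial.X + Polynomial.C 1 := by
      simp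
      ring
    rw [e]
    exact Polynomial.natDegree_linear (neg_ne_zero.mpr PowerSeries.X_ne_zero)
  omega

lemma T_pow (n : ℕ) : T ^ n = ⟨mulP (Polynomial.C (PowerSeries.X ^ n)), mulP_mem _⟩ := by
  induction n with
  | zero =>
    apply D_ext
    intro f
    show f = Polynomial.C ((PowerSeries.X : V) ^ 0) * f
    simp
  | succ n ih =>
    rw [pow_succ, ih]
    apply D_ext
    intro f
    show Polynomial.C ((PowerSeries.X : V) ^ n) * (Polynomial.C (PowerSeries.X : V) * f) =
      Polynomial.C ((PowerSeries.X : V) ^ (n + 1)) * f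
    rw [pow_succ, Polynomial.C_mul]
    ring

lemma ideal_step2 (I : TwoSidedIdeal (D Y)) (n : ℕ) : ∀ p : Polynomial V, p.natDegree ≤ n →
    p ≠ 0 → (⟨mulP p, mulP_mem p⟩ : D Y) ∈ I → ∃ c : V, c ≠ 0 ∧
      (⟨mulP (Polynomial.C c), mulP_mem _⟩ : D Y) ∈ I := by
  induction n with
  | zero =>
    intro p hp hp0 hI
    obtain ⟨c, rfl⟩ := Polynomial.natDegree_eq_zero.mp (Nat.le_zero.mp hp)
    exact ⟨c, fun h => hp0 (by rw [h, map_zero]), hI⟩
  | succ n ih =>
    intro p hp hp0 hI
    by_cases hd : p.natDegree = 0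
    · obtain ⟨c, rfl⟩ := Polynomial.natDegree_eq_zero.mp hd
      exact ⟨c, fun h => hp0 (by rw [h, map_zero]), hI⟩
    · have htf : IsAddTorsionFree V := IsAddTorsionFree.of_module_rat _
      have h1 : Polynomial.derivative p ≠ 0 := by
        intro h0
        exact hd (Polynomial.derivative_eq_zero.mp h0)
      have h2 := Polynomial.natDegree_derivative_lt hd
      apply ih (Polynomial.derivative p) (by omega) h1
      rw [← der_comm]
      exact I.sub_mem (I.mul_mem_left _ _ hI) (I.mul_mem_right _ _ hI)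

lemma ideal_pow (I : TwoSidedIdeal (D Y)) (hI : I ≠ ⊥) : ∃ n, T ^ n ∈ I := by
  obtain ⟨r, hr, hr0⟩ : ∃ r ∈ I, r ≠ 0 := by
    by_contra hcon
    push Not at hcon
    apply hI
    apply TwoSidedIdeal.ext
    intro x
    rw [TwoSidedIdeal.mem_bot]
    exact ⟨hcon x, fun h => h ▸ I.zero_mem⟩
  obtain ⟨n, hn⟩ := r.2
  obtain ⟨s, hs, hs0, hsY⟩ := ideal_step1 Y I n r hr hr0 hn
  have h1 := eq_mulP _ hsY
  have h2 : s = ⟨mulP ((s : E) 1), mulP_mem _⟩ := Subtype.ext h1
  have h3 : (s : E) 1 ≠ 0 := by
    intro h0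
    apply hs0
    apply D_ext
    intro f
    rw [h1, h0]
    show 0 * f = 0
    rw [zero_mul]
  rw [h2] at hs
  obtain ⟨c, hc0, hc⟩ := ideal_step2 I _ _ le_rfl h3 hs
  obtain ⟨k, u, hu⟩ := IsDiscreteValuationRing.eq_unit_mul_pow_irreducible hc0
    (PowerSeries.X_irreducible (R := ℚ))
  refine ⟨k, ?_⟩
  have h4 : (⟨mulP (Polynomial.C ((u⁻¹ : Vˣ) : V)), mulP_mem _⟩ : D Y) *
      ⟨mulP (Polynomial.C c), mulP_mem _⟩ = T ^ k := by
    rw [T_pow]
    apply D_ext
    intro f
    show Polynomial.C ((u⁻¹ : Vˣ) : V) * (Polynomial.C c * f) =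
      Polynomial.C ((PowerSeries.X : V) ^ k) * f
    rw [← mul_assoc, ← Polynomial.C_mul, hu, ← mul_assoc, Units.inv_mul, one_mul]
  rw [← h4]
  exact I.mul_mem_left _ _ hc

/-- **Main result.** There is a right primitive ring which is not a subdirect product of rings that
are both right primitive and subdirectly indecomposable. -/
theorem result : ∃ (R : Type) (_ : NonUnitalRing R),
    RightPrimitive R ∧ ¬ IsSubdirectProductOfSIPrimitive R :=
  ⟨D Y, inferInstance, criterion_primitive T ⟨mulP Polynomial.X, mulP_mem _⟩ T_central ideal_pow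
    Ty_unit, criterion_not_subdirect T T_central ideal_pow T_reg T_unit⟩

end Pool.Agent.Results.MP_150040_al.Counterexample
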